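import Pool.Agent.Lib.MP_ae8a84_co.Defs

namespace Pool.Agent.Lib.MP_ae8a84_co

open Finset

lemma icc_inter_nonempty {l r l' r' : ℝ} (h : l ≤ r) (h' : l' ≤ r') :
    (Set.Icc l r ∩ Set.Icc l' r').Nonempty ↔ l' ≤ r ∧ l ≤ r' := by
  constructor
  · rintro ⟨z, ⟨h1, h2⟩, h3, h4⟩
    exact ⟨h3.trans h2, h1.trans h4⟩
  · rintro ⟨h1, h2⟩
    refine ⟨max l l', ⟨le_max_left _ _, max_le h h1⟩, le_max_right _ _, max_le h2 h'⟩

lemma Bigraph.IntervalOn.mono {B : Bigraph} {S S' : Set (Fin B.s)} {T T' : Set (Fin B.t)}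
    (h : B.IntervalOn S T) (hS : S' ⊆ S) (hT : T' ⊆ T) : B.IntervalOn S' T' := by
  obtain ⟨l, r, l', r', h1, h2, h3⟩ := h
  exact ⟨l, r, l', r', h1, h2, fun x hx y hy => h3 x (hS hx) y (hT hy)⟩

/-- Two rank scales whose zero sets are disjoint can be merged to an interval representation. -/
lemma intervalOn_of_ranks (B : Bigraph) (S : Set (Fin B.s)) (T : Set (Fin B.t))
    (p q : Fin B.s → ℕ) (a b : Fin B.t → ℕ)
    (h : ∀ x ∈ S, ∀ y ∈ T, (B.E x y ↔ a y ≤ q x ∧ p x ≤ b y) ∧ ¬ (q x < a y ∧ b y < p x)) :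
    B.IntervalOn S T := by
  classical
  set M : ℕ := (univ.sup p) + 1 with hM
  have hpM : ∀ x, p x < M := fun x => Nat.lt_succ_of_le (Finset.le_sup (f := p) (mem_univ x))
  set H : ℕ → ℕ := fun z => (univ.filter fun y => y ∈ T ∧ b y < z).sup a with hH
  have Hmono : Monotone H := by
    intro z z' hz
    apply Finset.sup_mono
    intro y hy
    simp only [mem_filter, mem_univ, true_and] at hy ⊢
    exact ⟨hy.1, by omega⟩
  set P : ℕ → ℕ := fun z => M * H z + z with hP
  have Pmono : StrictMono P := by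
    intro z z' hz
    have := Nat.mul_le_mul_left M (Hmono hz.le)
    simp only [hP]; omega
  have hrow : ∀ x ∈ S, P (p x) ≤ M * q x + (M - 1) := by
    intro x hx
    have : H (p x) ≤ q x := by
      apply Finset.sup_le
      intro y hy
      simp only [mem_filter, mem_univ, true_and] at hy
      have := (h x hx y hy.1).2
      omega
    have h2 := Nat.mul_le_mul_left M this
    have := hpM x
    simp only [hP]; omega
  have hcol : ∀ y ∈ T, M * a y ≤ P (b y + 1) - 1 := by
    intro y hy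
    have : a y ≤ H (b y + 1) := Finset.le_sup (f := a) (by simp [hy])
    have h2 := Nat.mul_le_mul_left M this
    simp only [hP]; omega
  refine ⟨fun x => if x ∈ S then (P (p x) : ℝ) else 0,
    fun x => if x ∈ S then ((M * q x + (M - 1) : ℕ) : ℝ) else 0,
    fun y => if y ∈ T then ((M * a y : ℕ) : ℝ) else 0,
    fun y => if y ∈ T then ((P (b y + 1) - 1 : ℕ) : ℝ) else 0, ?_, ?_, ?_⟩
  · intro x
    by_cases hx : x ∈ S
    · simp only [hx, if_true]; exact_mod_cast hrow x hx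
    · simp [hx]
  · intro y
    by_cases hy : y ∈ T
    · simp only [hy, if_true]; exact_mod_cast hcol y hy
    · simp [hy]
  · intro x hx y hy
    simp only [hx, hy, if_true]
    rw [icc_inter_nonempty (by exact_mod_cast hrow x hx) (by exact_mod_cast hcol y hy),
      (h x hx y hy).1, Nat.cast_le, Nat.cast_le]
    have hM1 : 1 ≤ M := by omega
    have e1 : M * a y ≤ M * q x + (M - 1) ↔ a y ≤ q x := by
      constructor
      · intro h1
        by_contra hc
        have : M * (q x + 1) ≤ M * a y := Nat.mul_le_mul_left M (by omega)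
        rw [mul_add] at this
        omega
      · intro h1
        have := Nat.mul_le_mul_left M h1
        omega
    have e2 : P (p x) ≤ P (b y + 1) - 1 ↔ p x ≤ b y := by
      have hpos : 1 ≤ P (b y + 1) := by simp only [hP]; omega
      have := Pmono.lt_iff_lt (a := p x) (b := b y + 1)
      omega
    rw [e1, e2]

/-- A bigraph given by a relation on natural numbers. -/
def ofRel (s t : ℕ) (E : ℕ → ℕ → Prop) : Bigraph := ⟨s, t, fun x y => E x.1 y.1⟩

/-- A colouring of the non-edges by two disjoint Ferrers relations. -/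
structure Col (s t : ℕ) (E L R : ℕ → ℕ → Prop) : Prop where
  adj : ∀ x < s, ∀ y < t, E x y ↔ ¬ L x y ∧ ¬ R x y
  dis : ∀ x y, ¬ (L x y ∧ R x y)
  fL : ∀ x y x' y', L x y → L x' y' → L x y' ∨ L x' y
  fR : ∀ x y x' y', R x y → R x' y' → R x y' ∨ R x' y

lemma Col.swap {s t : ℕ} {E L R : ℕ → ℕ → Prop} (h : Col s t E L R) : Col s t E R L :=
  ⟨fun x hx y hy => (h.adj x hx y hy).trans and_comm, fun x y hh => h.dis x y ⟨hh.2, hh.1⟩,
    h.fR, h.fL⟩

lemma Col.opp {s t : ℕ} {E L R : ℕ → ℕ → Prop} (h : Col s t E L R) {x y : ℕ} (x' y' : ℕ)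
    (hL : L x y) (hx : x < s) (hy : y < t) (hx' : x' < s) (hy' : y' < t)
    (h1 : E x y') (h2 : E x' y) (h3 : ¬ E x' y') : R x' y' := by
  rw [h.adj x hx y' hy'] at h1
  rw [h.adj x' hx' y hy] at h2
  rw [h.adj x' hx' y' hy'] at h3
  by_contra hR
  have hL' : L x' y' := by
    by_contra hL'
    exact h3 ⟨hL', hR⟩
  rcases h.fL x y x' y' hL hL' with h4 | h4
  · exact h1.1 h4
  · exact h2.1 h4

lemma col_of_interval {s t : ℕ} {E : ℕ → ℕ → Prop}
    (h : (ofRel s t E).IntervalOn Set.univ Set.univ) : ∃ L R, Col s t E L R := by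
  obtain ⟨l, r, l', r', h1, h2, h3⟩ := h
  let l0 : ℕ → ℝ := fun x => if hx : x < s then l ⟨x, hx⟩ else 0
  let r0 : ℕ → ℝ := fun x => if hx : x < s then r ⟨x, hx⟩ else 0
  let l1 : ℕ → ℝ := fun y => if hy : y < t then l' ⟨y, hy⟩ else 0
  let r1 : ℕ → ℝ := fun y => if hy : y < t then r' ⟨y, hy⟩ else 0
  have g0 : ∀ x, l0 x ≤ r0 x := by
    intro x
    by_cases hx : x < s
    · simp only [l0, r0, hx, dite_true]; exact h1 _
    · simp [l0, r0, hx]
  have g1 : ∀ y, l1 y ≤ r1 y := by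
    intro y
    by_cases hy : y < t
    · simp only [l1, r1, hy, dite_true]; exact h2 _
    · simp [l1, r1, hy]
  refine ⟨fun x y => r0 x < l1 y, fun x y => r1 y < l0 x, ?_, ?_, ?_, ?_⟩
  · intro x hx y hy
    have := h3 ⟨x, hx⟩ trivial ⟨y, hy⟩ trivial
    rw [icc_inter_nonempty (h1 _) (h2 _)] at this
    simp only [l0, r0, l1, r1, hx, hy, dite_true, not_lt]
    exact this
  · rintro x y ⟨h4, h5⟩
    have := g0 x
    have := g1 y
    linarith
  · intro x y x' y' h4 h5
    by_contra hc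
    push Not at hc
    linarith [hc.1, hc.2]
  · intro x y x' y' h4 h5
    by_contra hc
    push Not at hc
    linarith [hc.1, hc.2]

lemma iso_equivalence : Equivalence Bigraph.Iso := by
  refine ⟨fun B => Or.inl ⟨Equiv.refl _, Equiv.refl _, fun _ _ => Iff.rfl⟩, ?_, ?_⟩
  · rintro B C (⟨e, f, h⟩ | ⟨e, f, h⟩)
    · refine Or.inl ⟨e.symm, f.symm, fun x y => ?_⟩
      rw [h]; simp
    · refine Or.inr ⟨f.symm, e.symm, fun x y => ?_⟩
      rw [h]; simp
  · rintro B C D (⟨e, f, h⟩ | ⟨e, f, h⟩) (⟨e', f', h'⟩ | ⟨e', f', h'⟩)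
    · exact Or.inl ⟨e.trans e', f.trans f', fun x y => (h x y).trans (h' _ _)⟩
    · exact Or.inr ⟨e.trans e', f.trans f', fun x y => (h x y).trans (h' _ _)⟩
    · exact Or.inr ⟨e.trans f', f.trans e', fun x y => (h x y).trans (h' _ _)⟩
    · exact Or.inl ⟨e.trans f', f.trans e', fun x y => (h x y).trans (h' _ _)⟩

end Pool.Agent.Lib.MP_ae8a84_co
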