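import Mathlib
import Pool.Agent.Lib.MP_ae8a84_co.Rep

set_option autoImplicit false
set_option linter.unusedSectionVars false
set_option linter.unusedVariables false

namespace Pool.Agent.Lib.MP_ae8a84_co.Core

open Finset

/-- Biadjacency matrix of `K_{3,3}` with two pendant vertices on each side. -/
def F10 : Fin 5 → Fin 5 → Bool :=
  ![![true, true, true, true, false], ![true, true, true, false, true],
    ![true, true, true, false, false], ![true, false, false, false, false],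
    ![false, true, false, false, false]]

lemma ranks {X Y : Type} [Fintype X] [Fintype Y] (T : X → Y → Prop)
    (h : ∀ x x' y y', T x y → T x' y' → T x y' ∨ T x' y) :
    ∃ (f : X → ℕ) (g : Y → ℕ), ∀ x y, T x y ↔ g y < f x := by
  classical
  refine ⟨fun x => #{y | T x y}, fun y => (univ.filter fun x => ¬ T x y).sup fun x => #{y | T x y},
    fun x y => ⟨fun hxy => ?_, fun hlt => ?_⟩⟩
  · refine (Finset.sup_lt_iff (card_pos.2 ⟨y, by simpa using hxy⟩)).2 fun x' hx' => ?_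
    have hx' : ¬ T x' y := by simpa using hx'
    refine card_lt_card ⟨fun y' hy' => ?_, fun hs => hx' ?_⟩
    · have := h x x' y y' hxy (by simpa using hy')
      simp only [mem_filter, mem_univ, true_and]; tauto
    · simpa using hs (x := y) (by simpa using hxy)
  · by_contra hn
    exact absurd (Finset.le_sup (f := fun x => #{y | T x y})
      (s := univ.filter fun x => ¬ T x y) (b := x) (by simpa using hn)) (not_le.2 hlt)

section
variable {X Y : Type} (E L G : X → Y → Prop)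

def Has : Prop := ∃ (f : Fin 5 → X) (g : Fin 5 → Y), ∀ i j, E (f i) (g j) ↔ F10 i j = true
def R0 (x : X) (y : Y) : Prop := L x y ∧ ∃ x' y', E x' y ∧ E x y' ∧ ¬ E x' y'
def I1 (x : X) (y : Y) : Prop := ∃ x1 y1, E x1 y1 ∧ R0 E L x1 y ∧ R0 E L x y1
def T1 (x : X) (y : Y) : Prop := R0 E L x y ∨ I1 E L x y

lemma mk (x x' : X) (y y' : Y) : E x' y → E x y' → ¬ E x' y' → L x y → R0 E L x y :=
  fun h1 h2 h3 h4 => ⟨h4, x', y', h1, h2, h3⟩

lemma nT {x : X} {y : Y} (h : ¬ T1 E L x y) :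
    ¬ R0 E L x y ∧ ∀ x1 y1, E x1 y1 → R0 E L x1 y → R0 E L x y1 → False :=
  ⟨fun h1 => h (Or.inl h1), fun x1 y1 h1 h2 h3 => h (Or.inr ⟨x1, y1, h1, h2, h3⟩)⟩

lemma has (a b c d e : X) (u v w x y : Y)
    (h : (E a u ∧ E a v ∧ E a w ∧ E a x ∧ ¬ E a y) ∧ (E b u ∧ E b v ∧ E b w ∧ ¬ E b x ∧ E b y) ∧
      (E c u ∧ E c v ∧ E c w ∧ ¬ E c x ∧ ¬ E c y) ∧
      (E d u ∧ ¬ E d v ∧ ¬ E d w ∧ ¬ E d x ∧ ¬ E d y) ∧
      (¬ E e u ∧ E e v ∧ ¬ E e w ∧ ¬ E e x ∧ ¬ E e y)) : Has E := by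
  refine ⟨![a, b, c, d, e], ![u, v, w, x, y], fun i j => ?_⟩
  fin_cases i <;> fin_cases j <;> simp [F10, h]

variable (hE : ∀ x y, E x y ↔ ¬ L x y ∧ ¬ G x y)
  (hL : ∀ x x' y y', L x y → L x' y' → L x y' ∨ L x' y)
  (hG : ∀ x x' y y', G x y → G x' y' → G x y' ∨ G x' y)
include hE hL hG

lemma T1_L {x : X} {y : Y} (h : T1 E L x y) : L x y := by
  rcases h with h | ⟨x1, y1, e, h1, h2⟩
  · exact h.1
  · have := hL x x1 y1 y h2.1 h1.1
    have := (hE x1 y1).1 e
    tauto

lemma c2RR {a b : X} {x y : Y} (h1 : R0 E L a x) (h2 : R0 E L b y)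
    (m0 : ¬ T1 E L a y) (m1 : ¬ T1 E L b x) : False := by
  obtain ⟨r0, n0⟩ := nT E L m0
  obtain ⟨r1, n1⟩ := nT E L m1
  obtain ⟨_, sr, sc, _, _, _⟩ := h1
  obtain ⟨_, tr, tc, _, _, _⟩ := h2
  have := hE a sc; have := hE a y; have := hE b tc; have := hE b x; have := hE sr sc
  have := hE sr tc; have := hE sr x; have := hE tr sc; have := hE tr tc; have := hE tr y
  have := hG a tr y sc; have := hG b sr x tc; have := hG sr tr sc tc; have := hL a sr x sc
  have := hL b tr y tc; have := mk E L a sr x sc; have := mk E L a tr y sc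
  have := mk E L b sr x tc; have := mk E L b tr y tc; have := n0 b x; have := n1 a y
  clear hE hL hG n0 n1 m0 m1
  grind

lemma c2RI {a b : X} {x y : Y} (h1 : R0 E L a x) (h2 : I1 E L b y)
    (m0 : ¬ T1 E L a y) (m1 : ¬ T1 E L b x) : False := by
  obtain ⟨r0, n0⟩ := nT E L m0
  obtain ⟨r1, n1⟩ := nT E L m1
  obtain ⟨_, sr, sc, _, _, _⟩ := h1
  obtain ⟨t1, t2, _, ⟨_, tpr, tpc, _, _, _⟩, _, tqr, tqc, _, _, _⟩ := h2
  have := hE a sc; have := hE a t2; have := hE a tpc; have := hE sr sc; have := hE sr t2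
  have := hE sr x; have := hE t1 sc; have := hE t1 tpc; have := hE t1 x; have := hG a sr t2 sc
  have := hG a t1 tpc sc; have := hG sr t1 sc x; have := hL a sr x sc; have := hL a t1 x y
  have := mk E L a sr t2 sc; have := mk E L a sr x sc; have := mk E L a t1 tpc sc
  have := mk E L a tpr y tpc; have := mk E L b tqr t2 tqc; have := mk E L t1 sr x t2
  have := mk E L t1 tpr y tpc; have := n0 t1 t2; have := n0 t1 tpc; have := n0 t1 x
  have := n1 a t2; have := n1 t1 t2
  clear hE hL hG n0 n1 m0 m1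
  grind

lemma c2II {a b : X} {x y : Y} (h1 : I1 E L a x) (h2 : I1 E L b y)
    (m0 : ¬ T1 E L a y) (m1 : ¬ T1 E L b x) : False := by
  obtain ⟨r0, n0⟩ := nT E L m0
  obtain ⟨r1, n1⟩ := nT E L m1
  obtain ⟨s1, s2, _, ⟨_, spr, spc, _, _, _⟩, _, sqr, sqc, _, _, _⟩ := h1
  obtain ⟨t1, t2, _, ⟨_, tpr, tpc, _, _, _⟩, _, tqr, tqc, _, _, _⟩ := h2
  have := hE b spc; have := hE b tqc; have := hE s1 s2; have := hE s1 spc; have := hE s1 t2
  have := hE s1 tqc; have := hE t1 s2; have := hE t1 t2; have := hE t1 tpc; have := hE tpr s2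
  have := hE tpr tpc; have := hE tpr y; have := hE tqr t2; have := hE tqr tqc
  have := hG b s1 spc tqc; have := hG s1 tqr t2 tqc; have := hG t1 tpr s2 tpc
  have := hL b s1 t2 x; have := hL b tqr t2 tqc; have := hL s1 t1 t2 s2; have := hL s1 t1 t2 y
  have := hL t1 tpr y tpc; have := mk E L a sqr s2 sqc; have := mk E L b s1 spc tqc
  have := mk E L b spr x spc; have := mk E L b tqr t2 tqc; have := mk E L s1 spr x spc
  have := mk E L s1 tpr y s2; have := mk E L t1 tpr y tpc; have := n0 s1 s2; have := n0 t1 s2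
  have := n1 s1 spc; have := n1 s1 t2
  clear hE hL hG n0 n1 m0 m1
  grind

lemma c3EE {a b : X} {x y : Y} (h1 : E a y) (h2 : E b x)
    (z0 : ¬ E a x) (z1 : ¬ E b y) (m0 : ¬ T1 E L a x) (m1 : ¬ T1 E L b y) : False := by
  obtain ⟨r0, n0⟩ := nT E L m0
  obtain ⟨r1, n1⟩ := nT E L m1
  have := hE a x; have := hE a y; have := hE b x; have := hE b y; have := hG a b x y
  have := mk E L a b x y; have := mk E L b a y x
  clear hE hL hG n0 n1 m0 m1
  grind

lemma c3ER {a b : X} {x y : Y} (h1 : E a y) (h2 : R0 E L b x)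
    (z0 : ¬ E a x) (z1 : ¬ E b y) (m0 : ¬ T1 E L a x) (m1 : ¬ T1 E L b y) : False := by
  obtain ⟨r0, n0⟩ := nT E L m0
  obtain ⟨r1, n1⟩ := nT E L m1
  obtain ⟨_, tr, tc, _, _, _⟩ := h2
  have := hE a x; have := hE a y; have := hE b tc; have := hE b y; have := hE tr tc
  have := hE tr x; have := hE tr y; have := hG a tr x y; have := hG b tr y tc
  have := hL b tr x tc; have := mk E L a tr x y; have := mk E L b tr x tc
  have := mk E L b tr y tc; have := mk E L tr a y x; have := n1 tr x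
  clear hE hL hG n0 n1 m0 m1
  grind

lemma c3RR {a b : X} {x y : Y} (h1 : R0 E L a y) (h2 : R0 E L b x)
    (z0 : ¬ E a x) (z1 : ¬ E b y) (m0 : ¬ T1 E L a x) (m1 : ¬ T1 E L b y) : False := by
  obtain ⟨r0, n0⟩ := nT E L m0
  obtain ⟨r1, n1⟩ := nT E L m1
  obtain ⟨_, sr, sc, _, _, _⟩ := h1
  obtain ⟨_, tr, tc, _, _, _⟩ := h2
  have := hE a sc; have := hE a x; have := hE b tc; have := hE b y; have := hE sr sc
  have := hE sr x; have := hE sr y; have := hE tr sc; have := hE tr tc; have := hE tr x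
  have := hE tr y; have := hG a sr x sc; have := hG a sr y sc; have := hG a tr x y
  have := hG b tr y tc; have := hG sr tr sc y; have := hL a sr y sc; have := hL b tr x tc
  have := mk E L a sr x sc; have := mk E L a tr x sc; have := mk E L b tr x tc
  have := mk E L b tr y tc; have := mk E L tr sr y x; have := n1 tr x
  clear hE hL hG n0 n1 m0 m1
  grind

lemma c3RI {a b : X} {x y : Y} (h1 : R0 E L a y) (h2 : I1 E L b x)
    (z0 : ¬ E a x) (z1 : ¬ E b y) (m0 : ¬ T1 E L a x) (m1 : ¬ T1 E L b y) : False := by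
  obtain ⟨r0, n0⟩ := nT E L m0
  obtain ⟨r1, n1⟩ := nT E L m1
  obtain ⟨_, sr, sc, _, _, _⟩ := h1
  obtain ⟨t1, t2, _, ⟨_, tpr, tpc, _, _, _⟩, _, tqr, tqc, _, _, _⟩ := h2
  have := hE a sc; have := hE a t2; have := hE sr sc; have := hE sr t2; have := hE sr y
  have := hE t1 sc; have := hE t1 t2; have := hE t1 y; have := hE tqr sc; have := hE tqr t2
  have := hG a sr t2 sc; have := hG a t1 t2 sc; have := hG a tqr t2 sc; have := hG sr t1 sc y
  have := hL a sr y sc; have := hL a tqr y sc; have := hL b t1 t2 sc; have := mk E L a sr y sc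
  have := mk E L a t1 t2 sc; have := mk E L b tqr sc tqc; have := mk E L b tqr t2 tqc
  have := mk E L t1 sr y sc; have := mk E L t1 tpr x tpc; have := mk E L tqr sr y t2
  have := n0 t1 t2; have := n0 t1 y; have := n1 a sc; have := n1 a t2; have := n1 t1 t2
  have := n1 tqr t2
  clear hE hL hG n0 n1 m0 m1
  grind

lemma c3II {a b : X} {x y : Y} (h1 : I1 E L a y) (h2 : I1 E L b x)
    (z0 : ¬ E a x) (z1 : ¬ E b y) (m0 : ¬ T1 E L a x) (m1 : ¬ T1 E L b y) : False := by
  obtain ⟨r0, n0⟩ := nT E L m0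
  obtain ⟨r1, n1⟩ := nT E L m1
  obtain ⟨s1, s2, _, ⟨_, spr, spc, _, _, _⟩, _, sqr, sqc, _, _, _⟩ := h1
  obtain ⟨t1, t2, _, ⟨_, tpr, tpc, _, _, _⟩, _, tqr, tqc, _, _, _⟩ := h2
  have := hE b tqc; have := hE s1 s2; have := hE s1 t2; have := hE s1 tqc; have := hE t1 s2
  have := hE t1 t2; have := hE t1 tpc; have := hE tpr s2; have := hE tpr tpc; have := hE tpr x
  have := hE tqr t2; have := hE tqr tqc; have := hG s1 t1 t2 s2; have := hG s1 tqr t2 tqc
  have := hG t1 tpr s2 tpc; have := hL b t1 t2 s2; have := hL b tqr t2 tqc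
  have := hL s1 t1 t2 s2; have := hL s1 t1 t2 x; have := hL t1 tpr x tpc
  have := mk E L a sqr s2 sqc; have := mk E L b s1 s2 tqc; have := mk E L b tqr t2 tqc
  have := mk E L s1 spr y spc; have := mk E L s1 tpr x s2; have := mk E L t1 tpr x tpc
  have := n0 s1 s2; have := n0 t1 s2; have := n1 s1 s2; have := n1 s1 t2
  clear hE hL hG n0 n1 m0 m1
  grind

lemma c3EI {a b : X} {x y : Y} (h1 : E a y) (h2 : I1 E L b x)
    (z0 : ¬ E a x) (z1 : ¬ E b y) (m0 : ¬ T1 E L a x) (m1 : ¬ T1 E L b y) : Has E := by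
  obtain ⟨r0, n0⟩ := nT E L m0
  obtain ⟨r1, n1⟩ := nT E L m1
  obtain ⟨t1, t2, _, ⟨_, tpr, tpc, _, _, _⟩, _, tqr, tqc, _, _, _⟩ := h2
  apply has E t1 tpr a b tqr tqc t2 y tpc x
  have := hE a t2; have := hE a tpc; have := hE a tqc; have := hE a x; have := hE a y
  have := hE b t2; have := hE b tpc; have := hE b tqc; have := hE b x; have := hE b y
  have := hE t1 t2; have := hE t1 tpc; have := hE t1 tqc; have := hE t1 x; have := hE t1 y
  have := hE tpr t2; have := hE tpr tpc; have := hE tpr tqc; have := hE tpr x; have := hE tpr y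
  have := hE tqr t2; have := hE tqr tpc; have := hE tqr tqc; have := hE tqr x; have := hE tqr y
  have := hG a b tqc y; have := hG a tpr x t2; have := hG a tpr x tpc; have := hG a tpr x tqc
  have := hG a tpr x y; have := hG a tqr t2 y; have := hG a tqr x tqc; have := hG b tpr y tpc
  have := hG b tqr y tqc; have := hG t1 tpr tqc tpc; have := hG t1 tpr y tpc
  have := hG tpr tqr tpc tqc; have := hL a b tqc t2; have := hL b t1 t2 tqc
  have := hL b t1 t2 x; have := hL b tpr x tqc; have := hL b tqr t2 tqc; have := hL t1 tpr x t2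
  have := hL t1 tpr x tpc; have := hL t1 tpr x y; have := mk E L a tpr x t2
  have := mk E L a tpr x tpc; have := mk E L a tpr x tqc; have := mk E L a tpr x y
  have := mk E L a tqr t2 y; have := mk E L a tqr x tqc; have := mk E L b a y tpc
  have := mk E L b a y tqc; have := mk E L b tqr t2 tqc; have := mk E L b tqr y tqc
  have := mk E L t1 a y tpc; have := mk E L t1 tpr x tpc; have := mk E L tqr a y t2
  have := n0 t1 t2; have := n1 t1 t2; have := n1 tqr t2
  clear hE hL hG n0 n1 m0 m1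
  grind (splits := 60)

lemma ferrers1 (a b : X) (x y : Y) (h1 : T1 E L a x) (h2 : T1 E L b y) :
    T1 E L a y ∨ T1 E L b x := by
  by_contra hn
  obtain ⟨m0, m1⟩ := not_or.1 hn
  rcases h1 with h1 | h1 <;> rcases h2 with h2 | h2
  · exact c2RR E L G hE hL hG h1 h2 m0 m1
  · exact c2RI E L G hE hL hG h1 h2 m0 m1
  · exact c2RI E L G hE hL hG h2 h1 m1 m0
  · exact c2II E L G hE hL hG h1 h2 m0 m1

lemma ferrers2 (hF : ¬ Has E) (a b : X) (x y : Y) (h1 : ¬ E a x ∧ ¬ T1 E L a x)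
    (h2 : ¬ E b y ∧ ¬ T1 E L b y) :
    (¬ E a y ∧ ¬ T1 E L a y) ∨ (¬ E b x ∧ ¬ T1 E L b x) := by
  by_contra hn
  obtain ⟨z0, m0⟩ := h1
  obtain ⟨z1, m1⟩ := h2
  have k1 : E a y ∨ R0 E L a y ∨ I1 E L a y := by unfold T1 at hn; tauto
  have k2 : E b x ∨ R0 E L b x ∨ I1 E L b x := by unfold T1 at hn; tauto
  rcases k1 with h1 | h1 | h1 <;> rcases k2 with h2 | h2 | h2
  · exact c3EE E L G hE hL hG h1 h2 z0 z1 m0 m1
  · exact c3ER E L G hE hL hG h1 h2 z0 z1 m0 m1
  · exact hF (c3EI E L G hE hL hG h1 h2 z0 z1 m0 m1)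
  · exact c3ER E L G hE hL hG h2 h1 z1 z0 m1 m0
  · exact c3RR E L G hE hL hG h1 h2 z0 z1 m0 m1
  · exact c3RI E L G hE hL hG h1 h2 z0 z1 m0 m1
  · exact hF (c3EI E L G hE hL hG h2 h1 z1 z0 m1 m0)
  · exact c3RI E L G hE hL hG h2 h1 z1 z0 m1 m0
  · exact c3II E L G hE hL hG h1 h2 z0 z1 m0 m1
end

theorem interval_of_free (B : Bigraph) (hB : B.TwoFerrers) (hF : ¬ Has B.E) :
    B.IntervalOn Set.univ Set.univ := by
  obtain ⟨p, q, a, b, h⟩ := hB
  set L : Fin B.s → Fin B.t → Prop := fun x y => b y < p x with hLd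
  set G : Fin B.s → Fin B.t → Prop := fun x y => q x < a y with hGd
  have hE : ∀ x y, B.E x y ↔ ¬ L x y ∧ ¬ G x y := fun x y => by
    rw [h]; simp only [hLd, hGd, not_lt]; tauto
  have hL : ∀ x x' y y', L x y → L x' y' → L x y' ∨ L x' y := fun x x' y y' h1 h2 => by
    simp only [hLd] at *; by_contra hn; push Not at hn; linarith [hn.1, hn.2]
  have hG : ∀ x x' y y', G x y → G x' y' → G x y' ∨ G x' y := fun x x' y y' h1 h2 => by
    simp only [hGd] at *; by_contra hn; push Not at hn; linarith [hn.1, hn.2]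
  obtain ⟨f1, g1, e1⟩ := ranks (T1 B.E L) (ferrers1 B.E L G hE hL hG)
  obtain ⟨f2, g2, e2⟩ := ranks (fun y x => ¬ B.E x y ∧ ¬ T1 B.E L x y)
    (fun y y' x x' h1 h2 => (ferrers2 B.E L G hE hL hG hF x x' y y' h1 h2).symm)
  refine intervalOn_of_ranks B _ _ f1 g2 f2 g1 fun x _ y _ => ?_
  have k1 := e1 x y
  have k2 := e2 y x
  have k3 := fun t => ((hE x y).1 t).1
  have k4 := T1_L B.E L G hE hL hG (x := x) (y := y)
  rw [← not_lt, ← not_lt, ← k1, ← k2]
  tauto

end Pool.Agent.Lib.MP_ae8a84_co.Core
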