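import Pool.Agent.Lib.MP_ae8a84_co.Rep

namespace Pool.Agent.Lib.MP_ae8a84_co

open Finset

lemma rank_le_iff {α : Type*} [Fintype α] (r : α → ℝ) (x : α) (c : ℝ) :
    (univ.filter fun z => r z < c).card ≤ (univ.filter fun z => r z < r x).card ↔ c ≤ r x := by
  classical
  constructor
  · intro h
    by_contra hc
    push Not at hc
    have : (univ.filter fun z => r z < r x).card < (univ.filter fun z => r z < c).card := by
      apply Finset.card_lt_card
      rw [Finset.ssubset_iff_of_subset]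
      · exact ⟨x, by simpa using hc, by simp⟩
      · intro z hz
        simp only [mem_filter, mem_univ, true_and] at hz ⊢
        exact hz.trans hc
    omega
  · intro h
    apply Finset.card_le_card
    intro z hz
    simp only [mem_filter, mem_univ, true_and] at hz ⊢
    exact hz.trans_le h

lemma ranks_of_intervalOn {B : Bigraph} {S : Set (Fin B.s)} {T : Set (Fin B.t)}
    (h : B.IntervalOn S T) :
    ∃ (p q : Fin B.s → ℕ) (a b : Fin B.t → ℕ), (∀ x, p x ≤ B.t) ∧ (∀ x, q x ≤ B.s) ∧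
      (∀ y, a y ≤ B.s) ∧ (∀ y, b y ≤ B.t) ∧
      ∀ x ∈ S, ∀ y ∈ T, (B.E x y ↔ a y ≤ q x ∧ p x ≤ b y) := by
  classical
  obtain ⟨l, r, l', r', h1, h2, h3⟩ := h
  refine ⟨fun x => (univ.filter fun z => r' z < l x).card,
    fun x => (univ.filter fun z => r z < r x).card,
    fun y => (univ.filter fun z => r z < l' y).card,
    fun y => (univ.filter fun z => r' z < r' y).card, ?_, ?_, ?_, ?_, ?_⟩
  · intro x; exact (card_filter_le _ _).trans (by simp)
  · intro x; exact (card_filter_le _ _).trans (by simp)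
  · intro x; exact (card_filter_le _ _).trans (by simp)
  · intro x; exact (card_filter_le _ _).trans (by simp)
  · intro x hx y hy
    rw [h3 x hx y hy, icc_inter_nonempty (h1 x) (h2 y), rank_le_iff, rank_le_iff]

/-- codes -/
abbrev Code (n : ℕ) := Fin (n + 1) × Fin (n + 1) × (Fin n → Fin (n + 1) × Fin (n + 1) × Bool)

def ext0 {n : ℕ} (D : Fin n → Fin (n + 1) × Fin (n + 1) × Bool) (z : ℕ) : ℕ × ℕ × Bool :=
  if h : z < n then ((D ⟨z, h⟩).1, (D ⟨z, h⟩).2.1, (D ⟨z, h⟩).2.2) else (0, 0, false)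

def decode {n : ℕ} (c : Code n) : Bigraph :=
  ofRel c.1 c.2.1 fun x y =>
    if x = 0 then (ext0 c.2.2 (c.1 + y)).2.2 = true
    else (ext0 c.2.2 (c.1 + y)).1 ≤ (ext0 c.2.2 x).2.1 ∧
      (ext0 c.2.2 x).1 ≤ (ext0 c.2.2 (c.1 + y)).2.1

lemma exists_code {n : ℕ} (B : Bigraph) (hB : B.MinForb) (hn : B.s + B.t ≤ n) :
    ∃ c : Code n, decode c = B := by
  classical
  obtain ⟨s, t, E⟩ := B
  simp only at hn
  have hs : 0 < s := by
    by_contra h0
    apply hB.1
    refine ⟨fun _ => 0, fun _ => 0, fun _ => 0, fun _ => 0, fun _ => le_rfl, fun _ => le_rfl, ?_⟩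
    intro x
    exact absurd x.2 (by simp only; omega)
  have hI := hB.2 {x | x ≠ ⟨0, hs⟩} Set.univ (by
    rintro ⟨h, -⟩
    have : (⟨0, hs⟩ : Fin s) ∈ ({x | x ≠ ⟨0, hs⟩} : Set (Fin s)) := h ▸ Set.mem_univ _
    exact this rfl)
  obtain ⟨p, q, a, b, hp, hq, ha, hb, h⟩ := ranks_of_intervalOn hI
  simp only at p q a b hp hq ha hb h
  let D : Fin n → Fin (n + 1) × Fin (n + 1) × Bool := fun z =>
    if hz : (z : ℕ) < s then
      (⟨p ⟨z, hz⟩, by have := hp ⟨z, hz⟩; omega⟩, ⟨q ⟨z, hz⟩, by have := hq ⟨z, hz⟩; omega⟩, false)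
    else if hz' : (z : ℕ) - s < t then
      (⟨a ⟨z - s, hz'⟩, by have := ha ⟨z - s, hz'⟩; omega⟩,
        ⟨b ⟨z - s, hz'⟩, by have := hb ⟨z - s, hz'⟩; omega⟩, decide (E ⟨0, hs⟩ ⟨z - s, hz'⟩))
    else (0, 0, false)
  have hrow : ∀ x : Fin s, ext0 D x = (p x, q x, false) := by
    intro x
    have h1 : (x : ℕ) < n := by have := x.2; omega
    simp only [ext0, h1, dite_true, D, x.2]
  have hcol : ∀ y : Fin t, ext0 D (s + y) = (a y, b y, decide (E ⟨0, hs⟩ y)) := by
    intro y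
    have h1 : s + (y : ℕ) < n := by have := y.2; omega
    have h2 : ¬ s + (y : ℕ) < s := by omega
    have h3 : s + (y : ℕ) - s < t := by have := y.2; omega
    have h4 : (⟨s + (y : ℕ) - s, h3⟩ : Fin t) = y := Fin.ext (by simp)
    simp only [ext0, h1, dite_true, D, h2, dite_false, h3, h4]
  refine ⟨(⟨s, by omega⟩, ⟨t, by omega⟩, D), ?_⟩
  simp only [decode, ofRel]
  congr 1
  funext x y
  rw [hrow x, hcol y]
  by_cases hx : (x : ℕ) = 0
  · have : x = ⟨0, hs⟩ := Fin.ext hx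
    subst this
    simp
  · have hx' : x ≠ ⟨0, hs⟩ := fun e => hx (by rw [e])
    simp only [hx, if_false]
    exact propext (h x hx' y trivial).symm

lemma card_code (n : ℕ) : Nat.card (Code n) = 2 ^ n * (n + 1) ^ (2 * n + 2) := by
  simp only [Code, Nat.card_eq_fintype_card, Fintype.card_prod, Fintype.card_fin,
    Fintype.card_pi, Fintype.card_bool, Finset.prod_const, Finset.card_univ]
  rw [mul_pow, mul_pow]
  ring

lemma exists_inj (P : Bigraph → Prop) (n : ℕ) :
    ∃ c : {B : Bigraph // B.MinForb ∧ P B ∧ B.s + B.t ≤ n} → Code n, Function.Injective c := by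
  choose c hc using fun B : {B : Bigraph // B.MinForb ∧ P B ∧ B.s + B.t ≤ n} =>
    exists_code B.1 B.2.1 B.2.2.2
  refine ⟨c, fun B C h => Subtype.ext ?_⟩
  rw [← hc B, ← hc C, h]

lemma finite_sub (P : Bigraph → Prop) (n : ℕ) :
    Finite {B : Bigraph // B.MinForb ∧ P B ∧ B.s + B.t ≤ n} := by
  obtain ⟨c, hc⟩ := exists_inj P n
  exact Finite.of_injective c hc

lemma count_le (P : Bigraph → Prop) (n : ℕ) : count P n ≤ 2 ^ n * (n + 1) ^ (2 * n + 2) := by
  obtain ⟨c, hc⟩ := exists_inj P n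
  have := finite_sub P n
  rw [← card_code]
  refine le_trans ?_ (Nat.card_le_card_of_injective c hc)
  exact Nat.card_le_card_of_surjective _ Quot.mk_surjective

lemma quot_eq_iff {P : Bigraph → Prop} {n : ℕ}
    (B C : {B : Bigraph // B.MinForb ∧ P B ∧ B.s + B.t ≤ n}) :
    Quot.mk (fun B C : {B : Bigraph // B.MinForb ∧ P B ∧ B.s + B.t ≤ n} => B.1.Iso C.1) B =
      Quot.mk _ C ↔ B.1.Iso C.1 := by
  have he : Equivalence
      (fun B C : {B : Bigraph // B.MinForb ∧ P B ∧ B.s + B.t ≤ n} => B.1.Iso C.1) :=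
    ⟨fun B => iso_equivalence.refl _, fun h => iso_equivalence.symm h,
      fun h h' => iso_equivalence.trans h h'⟩
  rw [Quot.eq, he.eqvGen_iff]

lemma count_mono (P : Bigraph → Prop) (n : ℕ) : count P n ≤ count (fun _ => True) n := by
  have := finite_sub (fun _ => True) n
  let F : {B : Bigraph // B.MinForb ∧ P B ∧ B.s + B.t ≤ n} →
      {B : Bigraph // B.MinForb ∧ True ∧ B.s + B.t ≤ n} := fun B => ⟨B.1, B.2.1, trivial, B.2.2.2⟩
  refine Nat.card_le_card_of_injective (Quot.map F (fun _ _ h => h)) ?_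
  intro B C
  induction B using Quot.ind
  induction C using Quot.ind
  intro h
  exact Quot.sound ((quot_eq_iff (P := fun _ => True) _ _).1 h)

end Pool.Agent.Lib.MP_ae8a84_co
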