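import Mathlib

namespace Pool.Agent.Lib.MP_ae8a84_co

/-- A finite bigraph with parts `Fin s` and `Fin t`. -/
structure Bigraph where
  s : ℕ
  t : ℕ
  E : Fin s → Fin t → Prop

/-- Isomorphism of bigraphs: parts go to parts (the two parts may be exchanged). -/
def Bigraph.Iso (B C : Bigraph) : Prop :=
  (∃ (e : Fin B.s ≃ Fin C.s) (f : Fin B.t ≃ Fin C.t), ∀ x y, B.E x y ↔ C.E (e x) (f y)) ∨
  (∃ (e : Fin B.s ≃ Fin C.t) (f : Fin B.t ≃ Fin C.s), ∀ x y, B.E x y ↔ C.E (f y) (e x))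

/-- The subgraph induced on `S` and `T` is an interval bigraph. -/
def Bigraph.IntervalOn (B : Bigraph) (S : Set (Fin B.s)) (T : Set (Fin B.t)) : Prop :=
  ∃ (l r : Fin B.s → ℝ) (l' r' : Fin B.t → ℝ), (∀ x, l x ≤ r x) ∧ (∀ y, l' y ≤ r' y) ∧
    ∀ x ∈ S, ∀ y ∈ T, (B.E x y ↔ (Set.Icc (l x) (r x) ∩ Set.Icc (l' y) (r' y)).Nonempty)

/-- Minimal forbidden induced subgraph for the class of interval bigraphs. -/
def Bigraph.MinForb (B : Bigraph) : Prop :=
  ¬ B.IntervalOn Set.univ Set.univ ∧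
    ∀ S T, ¬ (S = Set.univ ∧ T = Set.univ) → B.IntervalOn S T

/-- Ferrers dimension at most two. -/
def Bigraph.TwoFerrers (B : Bigraph) : Prop :=
  ∃ (p q : Fin B.s → ℝ) (a b : Fin B.t → ℝ), ∀ x y, B.E x y ↔ a y ≤ q x ∧ p x ≤ b y

/-- Number of isomorphism classes of minimal forbidden induced subgraphs with property `P`
and at most `n` vertices. -/
noncomputable def count (P : Bigraph → Prop) (n : ℕ) : ℕ :=
  Nat.card (Quot fun B C : {B : Bigraph // B.MinForb ∧ P B ∧ B.s + B.t ≤ n} => B.1.Iso C.1)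

end Pool.Agent.Lib.MP_ae8a84_co
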