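import Pool.Agent.Lib.MP_ae8a84_co.Rep

namespace Pool.Agent.Lib.MP_ae8a84_co

open Finset

/-- left rank of a row -/
def rp (k : ℕ) (g : ℕ → ℕ) (x : ℕ) : ℕ :=
  if x < 3 then 0 else if x < k then 2 * g x + 1 else if x < 2 * k then 2 * (x - k + 1)
  else 2 * k - 1

/-- right rank of a row -/
def rq (k : ℕ) (x : ℕ) : ℕ :=
  if x < k then 2 * x + 2 else if x = k then 2 * k + 1 else if x < 2 * k then 2 * k + 2 else 3

/-- left rank of a column (its right rank is its index) -/
def ca (k : ℕ) (y : ℕ) : ℕ :=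
  if y % 2 = 0 then y else if y = 2 * k - 1 then 3 else if y = 2 * k + 1 then 2 * k + 2 else y + 4

def FE (k : ℕ) (g : ℕ → ℕ) (x y : ℕ) : Prop := ca k y ≤ rq k x ∧ rp k g x ≤ y

def fam (k : ℕ) (g : ℕ → ℕ) : Bigraph := ofRel (2 * k + 1) (2 * k + 2) (FE k g)

lemma fam_twoFerrers (k : ℕ) (g : ℕ → ℕ) : (fam k g).TwoFerrers := by
  refine ⟨fun x => (rp k g x.1 : ℝ), fun x => (rq k x.1 : ℝ), fun y => (ca k y.1 : ℝ),
    fun y => (y.1 : ℝ), fun x y => ?_⟩
  simp only [Nat.cast_le]
  rfl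

section
variable {k : ℕ} {g : ℕ → ℕ}

lemma no_col_aux (hk : 5 ≤ k) (hg : ∀ x, g x ≤ x - 3) {L R : ℕ → ℕ → Prop}
    (h : Col (2 * k + 1) (2 * k + 2) (FE k g) L R) (hT : L k (2 * k + 1)) : False := by
  have hs := h.swap
  have g3 := hg 3
  -- B i for 2 ≤ i ≤ k
  have hB : ∀ i, 2 ≤ i → i ≤ k → R (k + i - 1) (2 * i - 1) := by
    intro i h1 h2
    apply h.opp _ _ hT <;> (try simp only [FE, ca, rq, rp]) <;> (try split_ifs) <;> omega
  have hC : R (k + 1) 2 := by
    apply h.opp _ _ hT <;> (try simp only [FE, ca, rq, rp]) <;> (try split_ifs) <;> omega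
  have hA0 : L 0 (2 * k - 1) := by
    apply hs.opp _ _ hC <;> (try simp only [FE, ca, rq, rp]) <;> (try split_ifs) <;> omega
  have hD0 : L 0 4 := by
    apply hs.opp _ _ hC <;> (try simp only [FE, ca, rq, rp]) <;> (try split_ifs) <;> omega
  have hD2 : L 2 8 := by
    apply hs.opp _ _ hC <;> (try simp only [FE, ca, rq, rp]) <;> (try split_ifs) <;> omega
  have hS : R 3 0 := by
    apply h.opp _ _ hD0 <;> (try simp only [FE, ca, rq, rp]) <;> (try split_ifs) <;> omega
  have hA1 : L 1 1 := by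
    apply hs.opp _ _ hS <;> (try simp only [FE, ca, rq, rp]) <;> (try split_ifs) <;>
      first | omega | contradiction
  have hB1 : R k 1 := by
    apply h.opp _ _ hD2 <;> (try simp only [FE, ca, rq, rp]) <;> (try split_ifs) <;> omega
  have hB' : ∀ i, 1 ≤ i → i ≤ k → R (k + i - 1) (2 * i - 1) := by
    intro i h1 h2
    rcases Nat.eq_or_lt_of_le h1 with h3 | h3
    · subst h3; simpa using hB1
    · exact hB i h3 h2
  have hA : ∀ j, 1 ≤ j → j < k → L j (2 * j - 1) := by
    intro j h1 h2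
    rcases Nat.eq_or_lt_of_le h1 with h3 | h3
    · subst h3; simpa using hA1
    · have := hB' (j - 1) (by omega) (by omega)
      have gj := hg j
      apply hs.opp _ _ this <;> (try simp only [FE, ca, rq, rp]) <;> (try split_ifs) <;> omega
  have notL : ∀ x y, x < 2 * k + 1 → y < 2 * k + 2 → FE k g x y → ¬ L x y :=
    fun x y hx hy he => ((h.adj x hx y hy).1 he).1
  have notR : ∀ x y, x < 2 * k + 1 → y < 2 * k + 2 → FE k g x y → ¬ R x y :=
    fun x y hx hy he => ((h.adj x hx y hy).1 he).2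
  have LorR : ∀ x y, x < 2 * k + 1 → y < 2 * k + 2 → ¬ FE k g x y → ¬ L x y → R x y := by
    intro x y hx hy he hl
    by_contra hr
    exact he ((h.adj x hx y hy).2 ⟨hl, hr⟩)
  have chain : ∀ i, 1 ≤ i → i ≤ k → R (2 * k) (2 * i) := by
    intro i h1
    induction i, h1 using Nat.le_induction with
    | base =>
      intro _
      apply h.opp _ _ hA0 <;> (try simp only [FE, ca, rq, rp]) <;> (try split_ifs) <;> omega
    | succ i h1 ih =>
      intro h2
      have r1 := ih (by omega)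
      have r2 : R (2 * k) (2 * i - 1) := by
        rcases h.fR _ _ _ _ r1 (hB' i h1 (by omega)) with h3 | h3
        · exact h3
        · exfalso
          refine notR _ _ (by omega) (by omega) ?_ h3
          simp only [FE, ca, rq, rp]; split_ifs <;> omega
      apply LorR _ _ (by omega) (by omega)
      · simp only [FE, ca, rq, rp]; split_ifs <;> omega
      · intro hl
        rcases h.fL _ _ _ _ hl (hA i h1 (by omega)) with h3 | h3
        · exact h.dis _ _ ⟨h3, r2⟩
        · refine notL _ _ (by omega) (by omega) ?_ h3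
          have gi := hg i
          simp only [FE, ca, rq, rp]; split_ifs <;> omega
  rcases h.fR _ _ _ _ (chain k (by omega) le_rfl) (hB' k (by omega) le_rfl) with h3 | h3
  · refine notR _ _ (by omega) (by omega) ?_ h3
    simp only [FE, ca, rq, rp]; split_ifs <;> omega
  · refine notR _ _ (by omega) (by omega) ?_ h3
    simp only [FE, ca, rq, rp]; split_ifs <;> omega

lemma fam_not_interval (hk : 5 ≤ k) (hg : ∀ x, g x ≤ x - 3) :
    ¬ (fam k g).IntervalOn Set.univ Set.univ := by
  intro h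
  obtain ⟨L, R, hc⟩ := col_of_interval h
  have hne : ¬ FE k g k (2 * k + 1) := by
    simp only [FE, ca, rq, rp]; split_ifs <;> omega
  rw [hc.adj k (by omega) _ (by omega)] at hne
  by_cases hL : L k (2 * k + 1)
  · exact no_col_aux hk hg hc hL
  · have hR : R k (2 * k + 1) := by
      by_contra hR
      exact hne ⟨hL, hR⟩
    exact no_col_aux hk hg hc.swap hR

/-- exchange of two values -/
def sw (c d z : ℕ) : ℕ := if z = c then d else if z = d then c else z

lemma del_of_ranks (S : Set (Fin (2 * k + 1))) (T : Set (Fin (2 * k + 2)))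
    (p q a b : ℕ → ℕ)
    (h : ∀ x : Fin (2 * k + 1), x ∈ S → ∀ y : Fin (2 * k + 2), y ∈ T →
      (FE k g x y ↔ a y ≤ q x ∧ p x ≤ b y) ∧ ¬ (q x < a y ∧ b y < p x)) :
    (fam k g).IntervalOn S T :=
  intervalOn_of_ranks (fam k g) S T (fun x => p x.1) (fun x => q x.1) (fun y => a y.1)
    (fun y => b y.1) h

lemma del_row (hk : 5 ≤ k) (hg : ∀ x, g x ≤ x - 3) (x0 : Fin (2 * k + 1)) :
    (fam k g).IntervalOn {x | x ≠ x0} Set.univ := by
  obtain ⟨i, hi⟩ := x0
  by_cases h1 : i < k
  · apply del_of_ranks _ _ (fun x => if x = 2 * k then 2 * i + 1 else rp k g x)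
      (fun x => if x = 2 * k then 2 * i + 2 else rq k x)
      (fun y => sw (2 * i + 2) (2 * i + 3) (ca k y)) (fun y => y)
    rintro ⟨x, hx⟩ hx0 ⟨y, hy⟩ -
    have hxi : x ≠ i := fun e => hx0 (Fin.ext e)
    have gx := hg x
    simp only [FE, ca, rq, rp, sw]
    split_ifs <;> omega
  by_cases h2 : i < 2 * k
  · apply del_of_ranks _ _ (fun x => if x = 2 * k then 2 * (i - k + 1) else rp k g x)
      (fun x => if x = 2 * k then 2 * (i - k + 1) + 1 else rq k x)
      (fun y => ca k y) (fun y => sw (2 * (i - k + 1)) (2 * (i - k + 1) - 1) y)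
    rintro ⟨x, hx⟩ hx0 ⟨y, hy⟩ -
    have hxi : x ≠ i := fun e => hx0 (Fin.ext e)
    have gx := hg x
    simp only [FE, ca, rq, rp, sw]
    split_ifs <;> omega
  · apply del_of_ranks _ _ (rp k g) (rq k) (ca k) (fun y => y)
    rintro ⟨x, hx⟩ hx0 ⟨y, hy⟩ -
    have hxi : x ≠ i := fun e => hx0 (Fin.ext e)
    have gx := hg x
    refine ⟨Iff.rfl, ?_⟩
    simp only [ca, rq, rp]
    split_ifs <;> omega

lemma del_col (hk : 5 ≤ k) (hg : ∀ x, g x ≤ x - 3) (y0 : Fin (2 * k + 2)) :
    (fam k g).IntervalOn Set.univ {y | y ≠ y0} := by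
  obtain ⟨j, hj⟩ := y0
  by_cases h1 : j = 0
  · apply del_of_ranks _ _
      (fun x => if x = 2 * k then 3 else if x = 1 then 2 else rp k g x)
      (fun x => if x = 2 * k then 4 else if x = 1 then 5 else rq k x)
      (fun y => sw 4 5 (ca k y)) (fun y => y)
    rintro ⟨x, hx⟩ - ⟨y, hy⟩ hy0
    have hyj : y ≠ j := fun e => hy0 (Fin.ext e)
    have gx := hg x
    simp only [FE, ca, rq, rp, sw]
    split_ifs <;> omega
  by_cases h2 : j = 2 * k + 1
  · apply del_of_ranks _ _
      (fun x => if x = 2 * k then 2 * k - 2 else if x = 2 * k - 2 then 2 * k - 3 else rp k g x)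
      (fun x => if x = 2 * k then 2 * k - 1 else if x = 2 * k - 2 then 2 * k else rq k x)
      (ca k) (fun y => sw (2 * k - 2) (2 * k - 3) y)
    rintro ⟨x, hx⟩ - ⟨y, hy⟩ hy0
    have hyj : y ≠ j := fun e => hy0 (Fin.ext e)
    have gx := hg x
    simp only [FE, ca, rq, rp, sw]
    split_ifs <;> omega
  by_cases h3 : j = 2 * k - 1
  · apply del_of_ranks _ _
      (fun x => if x = 2 * k then 2 * k + 2 else rp k g x)
      (fun x => if x = 2 * k then 2 * k + 2 else rq k x)
      (ca k) (fun y => y)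
    rintro ⟨x, hx⟩ - ⟨y, hy⟩ hy0
    have hyj : y ≠ j := fun e => hy0 (Fin.ext e)
    have gx := hg x
    simp only [FE, ca, rq, rp]
    split_ifs <;> omega
  by_cases h4 : j % 2 = 0
  · apply del_of_ranks _ _
      (fun x => if x = 2 * k then j - 1 else rp k g x)
      (fun x => if x = 2 * k then j + 1 else rq k x)
      (ca k) (fun y => y)
    rintro ⟨x, hx⟩ - ⟨y, hy⟩ hy0
    have hyj : y ≠ j := fun e => hy0 (Fin.ext e)
    have gx := hg x
    simp only [FE, ca, rq, rp]
    split_ifs <;> omega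
  · apply del_of_ranks _ _
      (fun x => if x = 2 * k then j + 2 else rp k g x)
      (fun x => if x = 2 * k then j + 2 else rq k x)
      (ca k) (fun y => y)
    rintro ⟨x, hx⟩ - ⟨y, hy⟩ hy0
    have hyj : y ≠ j := fun e => hy0 (Fin.ext e)
    have gx := hg x
    simp only [FE, ca, rq, rp]
    split_ifs <;> omega

lemma fam_minForb (hk : 5 ≤ k) (hg : ∀ x, g x ≤ x - 3) : (fam k g).MinForb := by
  refine ⟨fam_not_interval hk hg, fun S T hST => ?_⟩
  by_cases hS : S = Set.univ
  · have hT : T ≠ Set.univ := fun h => hST ⟨hS, h⟩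
    obtain ⟨y0, hy0⟩ := (Set.ne_univ_iff_exists_notMem T).1 hT
    refine (del_col hk hg y0).mono (Set.subset_univ _) ?_
    intro y hy e
    exact hy0 (e ▸ hy)
  · obtain ⟨x0, hx0⟩ := (Set.ne_univ_iff_exists_notMem S).1 hS
    refine (del_row hk hg x0).mono ?_ (Set.subset_univ _)
    intro x hx e
    exact hx0 (e ▸ hx)

end

end Pool.Agent.Lib.MP_ae8a84_co
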