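import Pool.Agent.Lib.MP_ae8a84_co.Family

namespace Pool.Agent.Lib.MP_ae8a84_co

open Finset

section
variable {k : ℕ} {g g' : ℕ → ℕ}

open Classical in
/-- rows adjacent to the last column that share a neighbour other than `n` with `x` -/
noncomputable def cs (k : ℕ) (g : ℕ → ℕ) (x : Fin (2 * k + 1)) : Finset (Fin (2 * k + 1)) :=
  univ.filter fun u => FE k g u (2 * k + 1) ∧
    ∃ y : Fin (2 * k + 2), (y : ℕ) ≠ 2 * k - 1 ∧ FE k g x y ∧ FE k g u y

lemma card_fin_Ico {n a b : ℕ} (hb : b ≤ n) (s : Finset (Fin n))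
    (hs : ∀ u : Fin n, u ∈ s ↔ a ≤ (u : ℕ) ∧ (u : ℕ) < b) : s.card = b - a := by
  rw [← Nat.card_Ico a b]
  apply Finset.card_bij (fun (u : Fin n) _ => (u : ℕ))
  · intro u hu
    exact mem_Ico.2 ((hs u).1 hu)
  · intro u _ v _ h
    exact Fin.ext h
  · intro z hz
    rw [mem_Ico] at hz
    exact ⟨⟨z, by omega⟩, (hs _).2 hz, rfl⟩

lemma cs_card_w (hk : 5 ≤ k) (hg : ∀ x, g x ≤ x - 3) (x : Fin (2 * k + 1)) (hx : (x : ℕ) < k) :
    (cs k g x).card = x := by
  rw [card_fin_Ico (a := k + 1) (b := k + 1 + x) (by omega)]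
  · omega
  · obtain ⟨x, hx'⟩ := x
    rintro ⟨u, hu⟩
    have gx := hg x
    have gu := hg u
    simp only [cs, mem_filter, mem_univ, true_and]
    simp only at hx
    constructor
    · rintro ⟨h1, ⟨y, hy⟩, h2, h3, h4⟩
      simp only [FE, ca, rq, rp] at h1 h2 h3 h4
      split_ifs at h1 h3 h4 <;> omega
    · intro h
      refine ⟨?_, ⟨2 * x + 2, by omega⟩, ?_, ?_, ?_⟩ <;> simp only [FE, ca, rq, rp] <;>
        (try split_ifs) <;> omega

lemma cs_card_t (hk : 5 ≤ k) (hg : ∀ x, g x ≤ x - 3) (x : Fin (2 * k + 1)) (hx : (x : ℕ) = k) :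
    (cs k g x).card = k - 1 := by
  rw [card_fin_Ico (a := k + 1) (b := 2 * k) (by omega)]
  · omega
  · obtain ⟨x, hx'⟩ := x
    rintro ⟨u, hu⟩
    have gx := hg x
    have gu := hg u
    simp only [cs, mem_filter, mem_univ, true_and]
    simp only at hx
    constructor
    · rintro ⟨h1, -⟩
      simp only [FE, ca, rq, rp] at h1
      split_ifs at h1 <;> omega
    · intro h
      refine ⟨?_, ⟨2 * k, by omega⟩, ?_, ?_, ?_⟩ <;> simp only [FE, ca, rq, rp] <;>
        (try split_ifs) <;> omega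

lemma iso_fix (hk : 5 ≤ k) (hg : ∀ x, g x ≤ x - 3) (hg' : ∀ x, g' x ≤ x - 3)
    (e : Fin (2 * k + 1) ≃ Fin (2 * k + 1)) (f : Fin (2 * k + 2) ≃ Fin (2 * k + 2))
    (h : ∀ x y, FE k g (x : Fin (2 * k + 1)) (y : Fin (2 * k + 2)) ↔ FE k g' (e x) (f y))
    (j : ℕ) (hj1 : 3 ≤ j) (hj2 : j + 2 ≤ k) : g j = g' j := by
  classical
  -- the pendant row is fixed
  have hv : ((e ⟨2 * k, by omega⟩ : Fin (2 * k + 1)) : ℕ) = 2 * k := by
    by_contra hne
    set x := e ⟨2 * k, by omega⟩ with hx
    have hx1 := x.2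
    have gx := hg' x
    have key : ∀ y : Fin (2 * k + 2), FE k g' x y → (f.symm y : ℕ) = 2 * k - 1 := by
      intro y hy
      have := (h ⟨2 * k, by omega⟩ (f.symm y)).2 (by simpa using hy)
      have h2 := (f.symm y).2
      simp only [FE, ca, rq, rp] at this
      split_ifs at this <;> omega
    have key2 : ∀ y y' : Fin (2 * k + 2), FE k g' x y → FE k g' x y' → (y : ℕ) = y' := by
      intro y y' hy hy'
      have : f.symm y = f.symm y' := Fin.ext ((key y hy).trans (key y' hy').symm)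
      rw [f.symm.injective this]
    by_cases h1 : (x : ℕ) < k
    · have := key2 ⟨2 * x, by omega⟩ ⟨2 * x + 2, by omega⟩
        (by simp only [FE, ca, rq, rp]; split_ifs <;> omega)
        (by simp only [FE, ca, rq, rp]; split_ifs <;> omega)
      simp only at this; omega
    by_cases h2 : (x : ℕ) = k
    · have := key2 ⟨2, by omega⟩ ⟨2 * k, by omega⟩
        (by simp only [FE, ca, rq, rp]; split_ifs <;> omega)
        (by simp only [FE, ca, rq, rp]; split_ifs <;> omega)
      simp only at this; omega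
    · have := key2 ⟨2 * k + 1, by omega⟩ ⟨2 * k, by omega⟩
        (by simp only [FE, ca, rq, rp]; split_ifs <;> omega)
        (by simp only [FE, ca, rq, rp]; split_ifs <;> omega)
      simp only at this; omega
  have hn : ((f ⟨2 * k - 1, by omega⟩ : Fin (2 * k + 2)) : ℕ) = 2 * k - 1 := by
    have := (h ⟨2 * k, by omega⟩ ⟨2 * k - 1, by omega⟩).1
      (by simp only [FE, ca, rq, rp]; split_ifs <;> omega)
    rw [hv] at this
    have h2 := (f ⟨2 * k - 1, by omega⟩).2
    simp only [FE, ca, rq, rp] at this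
    split_ifs at this <;> omega
  -- four common neighbours cannot go to the neighbours of the first column
  have h0 : ∀ y : Fin (2 * k + 2), 2 * k ≤ (y : ℕ) → (f y : ℕ) ≠ 0 := by
    intro y hy hf
    have hy2 := y.2
    have key : ∀ i : Fin (2 * k + 1), k + 1 ≤ (i : ℕ) → (i : ℕ) < 2 * k → (e i : ℕ) < 3 := by
      intro i h1 h2
      have := (h i y).1 (by simp only [FE, ca, rq, rp]; split_ifs <;> omega)
      rw [hf] at this
      simp only [FE, ca, rq, rp] at this
      split_ifs at this <;> omega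
    have inj : ∀ i i' : Fin (2 * k + 1), (e i : ℕ) = e i' → (i : ℕ) = i' := by
      intro i i' hh
      rw [e.injective (Fin.ext hh)]
    have a1 := key ⟨k + 1, by omega⟩ (by simp) (by simp only; omega)
    have a2 := key ⟨k + 2, by omega⟩ (by simp) (by simp only; omega)
    have a3 := key ⟨k + 3, by omega⟩ (by simp) (by simp only; omega)
    have a4 := key ⟨k + 4, by omega⟩ (by simp) (by simp only; omega)
    have b12 := inj ⟨k + 1, by omega⟩ ⟨k + 2, by omega⟩
    have b13 := inj ⟨k + 1, by omega⟩ ⟨k + 3, by omega⟩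
    have b14 := inj ⟨k + 1, by omega⟩ ⟨k + 4, by omega⟩
    have b23 := inj ⟨k + 2, by omega⟩ ⟨k + 3, by omega⟩
    have b24 := inj ⟨k + 2, by omega⟩ ⟨k + 4, by omega⟩
    have b34 := inj ⟨k + 3, by omega⟩ ⟨k + 4, by omega⟩
    simp only at b12 b13 b14 b23 b24 b34
    omega
  have finj : ∀ y y' : Fin (2 * k + 2), (f y : ℕ) = f y' → (y : ℕ) = y' := by
    intro i i' hh
    rw [f.injective (Fin.ext hh)]
  have hlast : ((f ⟨2 * k + 1, by omega⟩ : Fin (2 * k + 2)) : ℕ) = 2 * k + 1 := by
    set x := e ⟨2 * k - 1, by omega⟩ with hx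
    have hx1 := x.2
    have gx := hg' x
    have c1 := (h ⟨2 * k - 1, by omega⟩ ⟨2 * k - 1, by omega⟩).not.1
      (by simp only [FE, ca, rq, rp]; split_ifs <;> omega)
    have c2 := (h ⟨2 * k - 1, by omega⟩ ⟨2 * k, by omega⟩).1
      (by simp only [FE, ca, rq, rp]; split_ifs <;> omega)
    have c3 := (h ⟨2 * k - 1, by omega⟩ ⟨2 * k + 1, by omega⟩).1
      (by simp only [FE, ca, rq, rp]; split_ifs <;> omega)
    rw [hn, ← hx] at c1
    rw [← hx] at c2 c3
    have d2 := h0 ⟨2 * k, by omega⟩ (by simp)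
    have d3 := h0 ⟨2 * k + 1, by omega⟩ (by simp)
    have d4 := finj ⟨2 * k, by omega⟩ ⟨2 * k + 1, by omega⟩
    have d5 := (f ⟨2 * k, by omega⟩).2
    have d6 := (f ⟨2 * k + 1, by omega⟩).2
    simp only at d4
    have hx2 : (x : ℕ) = 2 * k - 1 := by
      simp only [FE, ca, rq, rp] at c1 c2 c3
      split_ifs at c1 c2 c3 <;> omega
    by_contra hne
    have e1 : ((f ⟨2 * k + 1, by omega⟩ : Fin (2 * k + 2)) : ℕ) = 2 * k := by
      rw [hx2] at c3
      simp only [FE, ca, rq, rp] at c3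
      split_ifs at c3 <;> omega
    have e2 : ((f ⟨2 * k, by omega⟩ : Fin (2 * k + 2)) : ℕ) = 2 * k + 1 := by
      rw [hx2] at c2
      simp only [FE, ca, rq, rp] at c2
      split_ifs at c2 <;> omega
    set z := e.symm ⟨k, by omega⟩ with hz
    have hz1 : (e z : ℕ) = k := by simp [hz]
    have hz2 := z.2
    have gz := hg z
    have k1 := (h z ⟨2 * k + 1, by omega⟩).2
      (by rw [hz1, e1]; simp only [FE, ca, rq, rp]; split_ifs <;> omega)
    have k2 := (h z ⟨2 * k, by omega⟩).not.2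
      (by rw [hz1, e2]; simp only [FE, ca, rq, rp]; split_ifs <;> omega)
    simp only [FE, ca, rq, rp] at k1 k2
    split_ifs at k1 k2 <;> omega
  have hlast' : ∀ u : Fin (2 * k + 1), FE k g u (2 * k + 1) ↔ FE k g' (e u) (2 * k + 1) := by
    intro u
    have := h u ⟨2 * k + 1, by omega⟩
    rwa [hlast] at this
  have hcs : ∀ x, (cs k g x).card = (cs k g' (e x)).card := by
    intro x
    apply Finset.card_equiv e
    intro u
    simp only [cs, mem_filter, mem_univ, true_and]
    rw [hlast' u]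
    apply and_congr_right
    intro _
    constructor
    · rintro ⟨y, h1, h2, h3⟩
      refine ⟨f y, fun hh => h1 ?_, (h _ _).1 h2, (h _ _).1 h3⟩
      exact finj y ⟨2 * k - 1, by omega⟩ (hh.trans hn.symm)
    · rintro ⟨y, h1, h2, h3⟩
      refine ⟨f.symm y, fun hh => h1 ?_, (h _ _).2 (by simpa using h2),
        (h _ _).2 (by simpa using h3)⟩
      have : f.symm y = ⟨2 * k - 1, by omega⟩ := Fin.ext hh
      rw [← hn, ← this]; simp
  have hej : ((e ⟨j, by omega⟩ : Fin (2 * k + 1)) : ℕ) = j := by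
    have c1 := hcs ⟨j, by omega⟩
    rw [cs_card_w hk hg _ (by simp only; omega)] at c1
    simp only at c1
    set x := e ⟨j, by omega⟩ with hx
    have hx1 := x.2
    by_cases h1 : (x : ℕ) < k
    · rw [cs_card_w hk hg' _ h1] at c1; exact c1.symm
    by_cases h2 : (x : ℕ) = k
    · rw [cs_card_t hk hg' _ h2] at c1; omega
    by_cases h3 : (x : ℕ) = 2 * k
    · have : x = e ⟨2 * k, by omega⟩ := Fin.ext (h3.trans hv.symm)
      have := congrArg Fin.val (e.injective this)
      simp only at this; omega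
    · exfalso
      have gj := hg j
      have := (hlast' ⟨j, by omega⟩).2
        (by rw [← hx]; simp only [FE, ca, rq, rp]; split_ifs <;> omega)
      simp only [FE, ca, rq, rp] at this
      split_ifs at this <;> omega
  have hdeg : (univ.filter fun y : Fin (2 * k + 2) => FE k g j y).card =
      (univ.filter fun y : Fin (2 * k + 2) => FE k g' j y).card := by
    apply Finset.card_equiv f
    intro y
    simp only [mem_filter, mem_univ, true_and]
    have := h ⟨j, by omega⟩ y
    rwa [hej] at this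
  have main : ∀ g1 g2 : ℕ → ℕ, g2 j ≤ j - 3 → g1 j < g2 j →
      (univ.filter fun y : Fin (2 * k + 2) => FE k g2 j y).card <
      (univ.filter fun y : Fin (2 * k + 2) => FE k g1 j y).card := by
    intro g1 g2 h1 h2
    apply Finset.card_lt_card
    rw [Finset.ssubset_iff_of_subset]
    · refine ⟨⟨2 * g1 j + 1, by omega⟩, ?_, ?_⟩ <;>
        simp only [mem_filter, mem_univ, true_and, FE, ca, rq, rp] <;> split_ifs <;> omega
    · rintro ⟨y, hy⟩
      simp only [mem_filter, mem_univ, true_and, FE, ca, rq, rp]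
      split_ifs <;> omega
  rcases lt_trichotomy (g j) (g' j) with h1 | h1 | h1
  · have := main g g' (hg' j) h1; omega
  · exact h1
  · have := main g' g (hg j) h1; omega

lemma fam_iso (hk : 5 ≤ k) (hg : ∀ x, g x ≤ x - 3) (hg' : ∀ x, g' x ≤ x - 3)
    (h : (fam k g).Iso (fam k g')) (j : ℕ) (hj1 : 3 ≤ j) (hj2 : j + 2 ≤ k) : g j = g' j := by
  rcases h with ⟨e, f, h⟩ | ⟨e, f, h⟩
  · exact iso_fix hk hg hg' e f h j hj1 hj2
  · have : 2 * k + 1 = 2 * k + 2 := by
      have := Fintype.card_congr e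
      rw [Fintype.card_fin, Fintype.card_fin] at this
      exact this
    omega

end

end Pool.Agent.Lib.MP_ae8a84_co
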